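import Pool.Agent.U78.ZE.Transfer

/-!
# The statement (E) is a theorem of ZF

In every model of Zermelo set theory (no choice, no Replacement, no Foundation), every additive
filter on the positive natural numbers extends, for every given set of positive natural numbers,
to an additive filter that contains this set or its complement.

Idea of the proof. Suppose that no additive filter containing `F` decides `B`. Then every filter
that contains `F` extends to an ultrafilter (otherwise a filter deciding `B` without ultrafilters
above it would be additive for trivial reasons). For an additive filter `G` above `F` let `w` be
the filter obtained by adding, one after another, the sets of a fixed enumeration of `B` and its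
shifts (or their complements). With the sets `A` that `w` decides together with all their shifts
one forms two larger additive filters: the one generated by `G` and all `A` with
`{n | A - n in w}` in `G`, and, if the first one is `G` itself, the one generated by `G` and the
sets `{n | A - n in w}` for `A` in `w`. One of them is strictly larger than `G`, and it is
definable from `G`, so the Bourbaki-Witt theorem (which needs no choice) gives a contradiction.
-/

namespace Pool.Agent.Results.MP_084d61_lc.AdditiveDecidesInZF

open Pool.Agent.Helper672.Plain Pool.Agent.U78.ZED

universe u

/-- In every model `M` of Zermelo set theory there is a semigroup of positive natural numbers, and
for every such semigroup `N` the statement (E) holds in `M`: for every additive filter `F` on `N`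
and every subset `B` of `N` there is an additive filter `G` that contains `F` and contains `B` or
the complement of `B`. -/
theorem result (M : Type u) [LSet.Structure M] [Zermelo M] :
    (∃ (N : M) (one : El N) (add : El N → El N → El N), IsPositiveNaturals N one add) ∧
      ∀ (N : M) (one : El N) (add : El N → El N → El N), IsPositiveNaturals N one add →
        StatementE N add :=
  ⟨Pool.Agent.U78.ZE.exists_positiveNaturals M, Pool.Agent.U78.ZE.statementE M⟩

end Pool.Agent.Results.MP_084d61_lc.AdditiveDecidesInZF
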